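import Pool.Agent.Results.MP_f24d98_nt.JacobsthalRange
import Pool.Agent.U513.AP.Sparse

/-!
# Gaps between the integers coprime to a primorial, near integral polynomials at simultaneous approximations

The starting file bounds the number of the `k ≤ x` for which the least positive even integer `f k` which is not a gap is small. Here:
for all points `α` outside of a set of small Hausdorff dimension, it is large for ALL natural numbers near integral polynomials at ALL
approximations of `α` with a large denominator.
-/

set_option autoImplicit false

open Finset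

namespace Pool.Agent.Results.MP_f24d98_nt.Approximations

open Pool.Agent.U513.AP
open Pool.Agent.H461R2.GP

/-- There is `0 < δ < 1` such that the property `min (J k, k ^ (1 + δ)) - k ^ (1 - δ) ≤ f k` holds at approximations outside of
exceptional sets of exponent `1 - δ`. -/
theorem result : ∃ δ : ℝ, 0 < δ ∧ δ < 1 ∧ AtApproximations (ι := Unit) (1 - δ)
    (fun _ k => min (J k : ℝ) ((k : ℝ) ^ (1 + δ)) - (k : ℝ) ^ (1 - δ) ≤ (f k : ℝ)) := by
  classical
  obtain ⟨δ, hδ, hδ1, -, X₀, h⟩ := JacobsthalRange.result
  refine ⟨δ, hδ, hδ1, sparse_law_pow hδ1.le _ fun _ => ⟨1, X₀, fun X hX => ?_⟩⟩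
  rw [one_mul]
  refine (ncard_le_filter fun n _ _ hn => ?_).trans (h X hX)
  exact not_le.1 hn

end Pool.Agent.Results.MP_f24d98_nt.Approximations
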